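import Pool.Agent.H10.Par2

namespace Pool.Agent.Results.MP_c0ccbe_al.Counter
open Finset Equiv

/-- `G` is transitive on ordered `k`-tuples of distinct points -/
def MultTrans {X : Type} (G : Subgroup (Perm X)) (k : ℕ) : Prop :=
  ∀ a b : Fin k ↪ X, ∃ g ∈ G, ∀ j, g (a j) = b j

/-- the action of `G` on `t`-subsets is primitive -/
def SetPrim {X : Type} (G : Subgroup (Perm X)) (t : ℕ) : Prop :=
  (∀ T T' : Finset X, T.card = t → T'.card = t → ∃ g ∈ G, T.map g.toEmbedding = T') ∧
    ∀ r : Setoid {T : Finset X // T.card = t},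
      (∀ g ∈ G, ∀ T T' U U' : {T : Finset X // T.card = t}, U.1 = T.1.map g.toEmbedding →
        U'.1 = T'.1.map g.toEmbedding → r T T' → r U U') → r = ⊥ ∨ r = ⊤

/-- a block of imprimitivity on the `t`-subsets -/
def IsBlk {X : Type} (G : Subgroup (Perm X)) (t : ℕ) (S : Set (Finset X)) : Prop :=
  S ⊆ {T | T.card = t} ∧ S.Nontrivial ∧ S ≠ {T | T.card = t} ∧
    ∀ g ∈ G, (fun T => T.map g.toEmbedding) '' S = S ∨
      Disjoint ((fun T => T.map g.toEmbedding) '' S) S

/-- `S` is a partition of `X` -/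
def IsPart {X : Type} (S : Set (Finset X)) : Prop := ∀ x, ∃! T, T ∈ S ∧ x ∈ T

open Pool.Agent.H10.Par

def ed (T : Finset ℕ) (c : W) : Finset W := insert c (T.image fun n => (n, true))

theorem result : ∃ (X : Type) (_ : Infinite X) (t : ℕ) (G : Subgroup (Perm X)) (S : Set (Finset X)),
    0 < t ∧ MultTrans G (t + 1) ∧ ¬ SetPrim G t ∧ IsBlk G t S ∧ ¬ IsPart S := by
  obtain ⟨Ed, d1, d2, u, h⟩ := main
  let P : Finset ℕ → W → Prop := fun T c => c.2 = false ∧ ed T c ∈ Ed
  have inj : Function.Injective fun n : ℕ => ((n, true) : W) := fun _ _ h => congrArg Prod.fst h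
  have p1 : ∀ T c c', T.card = 3 → P T c → P T c' → c = c' := fun T c c' hT h1 h2 => by
    have := u _ h1.2 _ h2.2 ((hT.symm.trans (card_image_of_injective T inj).symm).le.trans
      (card_le_card (subset_inter (subset_insert _ _) (subset_insert _ _))))
    have : c ∈ ed T c' := this ▸ mem_insert_self _ _
    refine (mem_insert.1 this).resolve_right fun h => ?_
    obtain ⟨n, -, rfl⟩ := mem_image.1 h
    exact Bool.noConfusion h1.1
  let G : Subgroup (Perm ℕ) :=
    { carrier := {g | ∃ k : Perm W, ∀ T c, P T c ↔ P (T.map g.toEmbedding) (k c)}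
      one_mem' := ⟨1, fun T c => by simp [Perm.one_def]⟩
      mul_mem' := by
        rintro g g' ⟨k, hk⟩ ⟨k', hk'⟩
        exact ⟨k * k', fun T c => by rw [hk', hk, map_map]; rfl⟩
      inv_mem' := by
        rintro g ⟨k, hk⟩
        refine ⟨k⁻¹, fun T c => ?_⟩
        rw [hk (T.map _), map_map]
        simp [Perm.inv_def] }
  have q1 : P {0, 1, 2} (0, false) := ⟨rfl, by convert d1 using 1; decide⟩
  have q2 : P {0, 3, 4} (0, false) := ⟨rfl, by convert d2 using 1; decide⟩
  have q3 : ¬ P {0, 1, 3} (0, false) := fun h => absurd (u _ h.2 _ d1 (by decide)) (by decide)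
  refine ⟨ℕ, inferInstance, 3, G, {T | T.card = 3 ∧ P T (0, false)}, by omega, fun a b => ?_,
    fun hp => ?_, ⟨fun _ h => h.1, ⟨_, ⟨by decide, q1⟩, _, ⟨by decide, q2⟩, by decide⟩,
      fun e => q3 (e.ge (show Finset.card {0, 1, 3} = 3 by decide)).2, ?_⟩, fun hp =>
    absurd ((hp 0).unique ⟨⟨by decide, q1⟩, by decide⟩ ⟨⟨by decide, q2⟩, by decide⟩) (by decide)⟩
  · obtain ⟨g, g1, g2, g3⟩ := h a b
    have e : ∀ n, g (n, true) = ((g (n, true)).1, true) := fun n => Prod.ext rfl (g2 _)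
    refine ⟨Equiv.ofBijective (fun n => (g (n, true)).1) ⟨fun m n h => inj (g.injective
      (Prod.ext h ((g2 (m, true)).trans (g2 (n, true)).symm))), fun n => ?_⟩, ⟨g, fun T c => ?_⟩,
      fun j => congrArg Prod.fst (g1 j)⟩
    · obtain ⟨w, hw⟩ := g.surjective (n, true)
      have := g2 w
      rw [hw] at this
      have e : (w.1, true) = w := Prod.ext rfl this
      exact ⟨w.1, by simp only [e, hw]⟩
    · refine and_congr (by rw [g2]) ((g3 _).trans (iff_of_eq (congrArg (· ∈ Ed) ?_)))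
      simp only [ed, image_insert, map_eq_image, image_image]
      exact congrArg _ (image_congr fun n _ => e n)
  · let r : Setoid {T : Finset ℕ // T.card = 3} :=
      ⟨fun T T' => ∀ c, P T.1 c ↔ P T'.1 c, fun _ _ => Iff.rfl, fun h c => (h c).symm,
        fun h h' c => (h c).trans (h' c)⟩
    rcases hp.2 r (by
      rintro g ⟨k, hk⟩ T T' U U' e e' h c
      obtain ⟨c, rfl⟩ := k.surjective c
      rw [e, e', ← hk, ← hk]
      exact h c) with h | h
    · have : r ⟨{0, 1, 2}, by decide⟩ ⟨{0, 3, 4}, by decide⟩ := fun c =>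
        ⟨fun h => p1 _ _ _ (by decide) q1 h ▸ q2, fun h => p1 _ _ _ (by decide) q2 h ▸ q1⟩
      rw [h] at this
      exact absurd (congrArg Subtype.val this) (by decide)
    · have : r ⟨{0, 1, 2}, by decide⟩ ⟨{0, 1, 3}, by decide⟩ := by rw [h]; trivial
      exact q3 ((this _).1 q1)
  · rintro g ⟨k, hk⟩
    by_cases c : k (0, false) = (0, false)
    · left
      ext T
      constructor
      · rintro ⟨T, h, rfl⟩
        exact ⟨by simpa using h.1, c ▸ (hk _ _).1 h.2⟩
      · intro h
        have e : (T.map g.symm.toEmbedding).map g.toEmbedding = T := by rw [map_map]; simp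
        exact ⟨T.map g.symm.toEmbedding, ⟨by simpa using h.1, (hk _ _).2 (by rw [e, c]; exact h.2)⟩, e⟩
    · refine .inr (Set.disjoint_left.2 ?_)
      rintro _ ⟨T, h, rfl⟩ h'
      exact c (p1 _ _ _ h'.1 ((hk _ _).1 h.2) h'.2)

end Pool.Agent.Results.MP_c0ccbe_al.Counter
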